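import Pool.Agent.N343.AS.Stm
import Pool.Agent.N602.AS.EXI
import Pool.Agent.N793.AS.Conv
import Pool.Agent.N712.AS.CRA
import Pool.Agent.N617.AS.CRB
import Pool.Agent.N434.AS.RIE
import Pool.Agent.N374.AS.MER
import Pool.Agent.N362.AS.SPL
import Pool.Agent.N31.AS.CNT
import Pool.Agent.N828.AS.SRR
import Pool.Agent.N914.AS.POS
import Pool.Agent.N570.AS.MIX
import Pool.Agent.N169.AS.Low
import Pool.Agent.N322.AS.Step
import Pool.Agent.N946.AS.SHI
import Pool.Agent.N323.AS.JGO
import Pool.Agent.N67.AS.GEN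
import Pool.Agent.N291.AS.NulAE
import Pool.Agent.N558.AS.RES
import Pool.Agent.N682.AS.RR
import Pool.Agent.N985.AS.TOT
import Pool.Agent.N823.AS.LAT
import Pool.Agent.N342.AS_DEC
import Pool.Agent.N310.AS.UNQ
import Pool.Agent.N344.AS.ONE
import Pool.Agent.N196.AS.RAN
import Pool.Agent.N749.AS.RIG
import Pool.Agent.N400.AS.TRA
import Pool.Agent.N619.AS.FIN

/-! # MP_160bbb_an : a large achievement set different from the plane

There is a conditionally convergent series in the plane with sum range `ℝ²` whose achievement set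
is not `ℝ²`, although its complement is a null set and a meagre set. -/

set_option autoImplicit false

open Filter Topology MeasureTheory

namespace Pool.Agent.Results.MP_160bbb_an.LargeAchievementSet

open Pool.Agent.N343.AS

theorem hTOT : S_TOT := Pool.Agent.N985.AS.TOT.main
theorem hRR : S_RR := Pool.Agent.N682.AS.RR.main
theorem hJGO : S_JGO := Pool.Agent.N323.AS.main

theorem hSRR : S_SRR :=
  Pool.Agent.N828.AS.SRR.main Pool.Agent.N434.ASR.main
    (Pool.Agent.N374.AS.MER.main Pool.Agent.N434.ASR.main)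
    Pool.Agent.N362.AS.main Pool.Agent.N31.AS.main

theorem hSTEP : S_STEP :=
  Pool.Agent.N322.AS.Step.main Pool.Agent.N914.AS.main Pool.Agent.N570.AS.MIX.main Pool.Agent.N169.AS.main

theorem hGEN : S_GEN :=
  Pool.Agent.N67.AS.GEN.main hSTEP Pool.Agent.N946.AS.SHI.main hJGO

theorem hONE : S_ONE :=
  Pool.Agent.N344.AS.ONE.main hRR hTOT Pool.Agent.N342.AS_DEC.main Pool.Agent.N310.ASUNQ.main

theorem hRAN : S_RAN := Pool.Agent.N196.AS.main hRR hTOT Pool.Agent.N823.AS.LAT.main

theorem hRIG : S_RIG := Pool.Agent.N749.AS.RIG.main hRR hRAN hONE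

theorem hMAIN : S_MAIN :=
  Pool.Agent.N619.AS.main Pool.Agent.N602.AS.EXI.main Pool.Agent.N793.AS.Conv.main
    Pool.Agent.N712.AS.main Pool.Agent.N617.AS.main hSRR hGEN
    Pool.Agent.N291.AS.NulAE.main Pool.Agent.N558.AS.main hJGO hRIG
    (Pool.Agent.N400.AS.main hTOT)

/-- There is a conditionally convergent series `∑ x n` in the plane with sum range `ℝ²` and
achievement set different from `ℝ²`, whose achievement set has positive (outer) measure and is of
the second category; moreover the complement of the achievement set is a null set and meagre. -/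
theorem result : ∃ x : ℕ → ℝ × ℝ,
    (∃ s, Tendsto (fun N => ∑ n ∈ Finset.range N, x n) atTop (𝓝 s)) ∧
    ¬ Summable (fun n => ‖x n‖) ∧
    sr x = Set.univ ∧ ach x ≠ Set.univ ∧
    0 < volume (ach x) ∧ ¬ IsMeagre (ach x) ∧
    volume (ach x)ᶜ = 0 ∧ IsMeagre (ach x)ᶜ := by
  obtain ⟨x, h1, h2, h3, h4, h5, h6⟩ := hMAIN
  have hun : (Set.univ : Set (ℝ × ℝ)) = ach x ∪ (ach x)ᶜ := by simp
  refine ⟨x, h1, h2, h3, h4, ?_, ?_, h5, h6⟩
  · rw [pos_iff_ne_zero]
    intro h0
    have hu : volume (Set.univ : Set (ℝ × ℝ)) = 0 := by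
      rw [hun]
      exact measure_union_null h0 h5
    exact (NeZero.ne (volume : Measure (ℝ × ℝ))) (Measure.measure_univ_eq_zero.mp hu)
  · intro h0
    have hu : IsMeagre (Set.univ : Set (ℝ × ℝ)) := by
      rw [hun]
      exact h0.union h6
    exact not_isMeagre_of_isOpen isOpen_univ Set.univ_nonempty hu

end Pool.Agent.Results.MP_160bbb_an.LargeAchievementSet
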